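import Pool.Agent.L5helper98.ID.Defs

set_option autoImplicit false

namespace Pool.Agent.L5helper54.ID

open MeasureTheory ProbabilityTheory Filter Topology Set
open Pool.Agent.L5helper98.ID

private lemma tri_cont (t : ℝ) : Continuous (tri t) := by
  unfold tri
  fun_prop

private lemma integ (f : ℝ → ℝ) (hf : Continuous f) (hc : HasCompactSupport f) (g : ℝ × ℝ → ℝ)
    (hg : Continuous g) : Integrable (fun p : ℝ × ℝ => g p * f p.1 * f p.2) (volume.prod volume) := by
  have h1 : Continuous (fun p : ℝ × ℝ => g p * f p.1 * f p.2) := by fun_prop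
  have h2 : HasCompactSupport (fun p : ℝ × ℝ => g p * f p.1 * f p.2) := by
    apply HasCompactSupport.intro (K := tsupport f ×ˢ tsupport f) (hc.isCompact.prod hc.isCompact)
    intro p hp
    rw [Set.mem_prod, not_and_or] at hp
    rcases hp with hp | hp
    · simp [image_eq_zero_of_notMem_tsupport hp]
    · simp [image_eq_zero_of_notMem_tsupport hp]
  exact h1.integrable_of_hasCompactSupport h2

private lemma diag_null : ∀ᵐ p : ℝ × ℝ ∂(volume.prod volume), p.1 - p.2 ≠ 0 := by
  have hm : MeasurableSet {p : ℝ × ℝ | ¬ (p.1 - p.2 ≠ 0)} := by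
    simp only [ne_eq, not_not]
    exact measurableSet_eq_fun (by fun_prop) (by fun_prop)
  rw [ae_iff, Measure.measure_prod_null hm]
  filter_upwards with x
  have : Prod.mk x ⁻¹' {p : ℝ × ℝ | ¬ (p.1 - p.2 ≠ 0)} = {x} := by
    ext y
    simp only [ne_eq, not_not, mem_preimage, mem_ofPred_eq, mem_singleton_iff, sub_eq_zero]
    exact eq_comm
  rw [this]
  simp

theorem PDL_b_holds (hTRI : St_TRI) (hMIX : St_MIX) : St_PDL := by
  refine ⟨fun x => by unfold Pool.Agent.L5helper98.ID.lp; rw [abs_neg], ?_⟩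
  intro f hf hc
  obtain ⟨hpos, C, hC⟩ := hTRI f hf hc
  set ν : Measure ℝ := volume.restrict (Ioc (0 : ℝ) 1) with hν
  set F : ℝ → ℝ × ℝ → ℝ := fun t p => tri t (p.1 - p.2) / t * f p.1 * f p.2 with hF
  -- the double integrals of the triangle functions
  have hint : ∀ t : ℝ, Integrable (fun p : ℝ × ℝ => tri t (p.1 - p.2) * f p.1 * f p.2)
      (volume.prod volume) := fun t => integ f hf hc (fun p => tri t (p.1 - p.2)) (by
        have := tri_cont t
        fun_prop)
  have hval : ∀ t : ℝ, ∫ p : ℝ × ℝ, tri t (p.1 - p.2) * f p.1 * f p.2 ∂(volume.prod volume) =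
      ∫ x, ∫ y, tri t (x - y) * f x * f y := fun t => integral_prod _ (hint t)
  have hnorm : ∀ t : ℝ, 0 < t → t ≤ 1 →
      ∫ p : ℝ × ℝ, |tri t (p.1 - p.2) * f p.1 * f p.2| ∂(volume.prod volume) ≤ C * t := by
    intro t h0 h1
    rw [integral_prod _ (hint t).abs]
    exact hC t h0 h1
  have hFeq : ∀ t, F t = fun p => t⁻¹ * (tri t (p.1 - p.2) * f p.1 * f p.2) := by
    intro t
    funext p
    simp only [hF]
    ring
  have hFint : ∀ t, Integrable (F t) (volume.prod volume) := by
    intro t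
    rw [hFeq]
    exact (hint t).const_mul _
  -- joint measurability
  have hmeas : Measurable (fun q : ℝ × (ℝ × ℝ) => F q.1 q.2) := by
    simp only [hF, tri]
    have hfm := hf.measurable
    fun_prop
  have hI : Integrable (fun q : ℝ × (ℝ × ℝ) => F q.1 q.2) (ν.prod (volume.prod volume)) := by
    rw [integrable_prod_iff hmeas.aestronglyMeasurable]
    refine ⟨ae_of_all _ fun t => hFint t, ?_⟩
    have hb : ∀ᵐ t ∂ν, ‖∫ p : ℝ × ℝ, ‖F t p‖ ∂(volume.prod volume)‖ ≤ C := by
      rw [hν]
      filter_upwards [ae_restrict_mem measurableSet_Ioc] with t ht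
      rw [Real.norm_of_nonneg (integral_nonneg fun p => norm_nonneg _)]
      have h1 : ∫ p : ℝ × ℝ, ‖F t p‖ ∂(volume.prod volume) =
          t⁻¹ * ∫ p : ℝ × ℝ, |tri t (p.1 - p.2) * f p.1 * f p.2| ∂(volume.prod volume) := by
        rw [← integral_const_mul]
        congr 1
        funext p
        rw [hFeq]
        simp only [norm_mul, Real.norm_eq_abs, abs_mul]
        rw [abs_of_pos (inv_pos.2 ht.1)]
      rw [h1]
      calc t⁻¹ * ∫ p : ℝ × ℝ, |tri t (p.1 - p.2) * f p.1 * f p.2| ∂(volume.prod volume)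
          ≤ t⁻¹ * (C * t) := mul_le_mul_of_nonneg_left (hnorm t ht.1 ht.2) (inv_pos.2 ht.1).le
        _ = C := by
          have := ht.1.ne'
          field_simp
    have hm : AEStronglyMeasurable (fun t => ∫ p : ℝ × ℝ, ‖F t p‖ ∂(volume.prod volume)) ν :=
      (hmeas.norm.stronglyMeasurable.integral_prod_right).aestronglyMeasurable
    have : IsFiniteMeasure ν := by
      rw [hν]
      infer_instance
    exact Integrable.of_bound hm C hb
  -- the decomposition
  have hdec : ∀ᵐ p : ℝ × ℝ ∂(volume.prod volume), lp (p.1 - p.2) * f p.1 * f p.2 =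
      tri 1 (p.1 - p.2) * f p.1 * f p.2 + ∫ t, F t p ∂ν := by
    filter_upwards [diag_null] with p hp
    have h1 := (hMIX (p.1 - p.2) hp).2
    have h2 : ∫ t, F t p ∂ν = (∫ t in Ioc (0 : ℝ) 1, tri t (p.1 - p.2) / t) * (f p.1 * f p.2) := by
      rw [← integral_mul_const]
      simp only [hF, mul_assoc]
      rfl
    rw [h2, h1]
    ring
  have hI2 : Integrable (fun p : ℝ × ℝ => ∫ t, F t p ∂ν) (volume.prod volume) :=
    hI.integral_prod_right
  have hlp : Integrable (fun p : ℝ × ℝ => lp (p.1 - p.2) * f p.1 * f p.2) (volume.prod volume) :=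
    ((hint 1).add hI2).congr (hdec.mono fun p hp => hp.symm)
  have hfin : ∫ x, ∫ y, lp (x - y) * f x * f y =
      ∫ p : ℝ × ℝ, lp (p.1 - p.2) * f p.1 * f p.2 ∂(volume.prod volume) :=
    (integral_prod _ hlp).symm
  rw [hfin, integral_congr_ae hdec, integral_add (hint 1) hI2, hval 1]
  have hswap : ∫ p : ℝ × ℝ, ∫ t, F t p ∂ν ∂(volume.prod volume) =
      ∫ t, ∫ p : ℝ × ℝ, F t p ∂(volume.prod volume) ∂ν := (integral_integral_swap hI).symm
  rw [hswap]
  apply add_nonneg (hpos 1 one_pos)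
  apply integral_nonneg_of_ae
  rw [hν]
  filter_upwards [ae_restrict_mem measurableSet_Ioc] with t ht
  show 0 ≤ ∫ p : ℝ × ℝ, F t p ∂(volume.prod volume)
  rw [hFeq, integral_const_mul, hval t]
  exact mul_nonneg (inv_pos.2 ht.1).le (hpos t ht.1)

end Pool.Agent.L5helper54.ID
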